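import Pool.Agent.Helper46_BOX.IntC

/-!
# Squad BOX, row INT: inversion of the linearization for two classes, N = 2
-/

set_option autoImplicit false

namespace Pool.Agent.BOX.H46

open Set Filter Topology
open Pool.Agent.BOX

noncomputable section

/-- The geometric weight. -/
def ow (s : ℝ) (n : ℤ) : ℝ := s ^ n.natAbs

theorem ow_one {s : ℝ} (hs : 1 ≤ s) (n : ℤ) : 1 ≤ ow s n := one_le_pow₀ hs

theorem ow_wt {s : ℝ} (hs : 1 ≤ s) : Wt (ow s) := by
  refine ⟨ow_one hs, fun g h => ?_⟩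
  unfold ow
  rw [← pow_add]
  exact pow_le_pow_right₀ hs (Int.natAbs_add_le g h)

theorem dat_of {w : ℤ → ℝ} {ν r s : ℝ} (p : Prf2 w ν r) (hs : 1 < s) (hsr : s ≤ r)
    (hs1 : s ≤ 101 / 100) : Dat (ow s) w := by
  have hs0 : 0 ≤ s := by linarith
  have hle : ∀ n : ℤ, ow s n ≤ r ^ n.natAbs := fun n => pow_le_pow_left₀ hs0 hsr _
  have hw1 : w (-1) = 1 := by rw [p.even, p.one]
  -- the sum without the two main terms
  have hg2s : Summable fun n : ℤ => (if n = 1 ∨ n = -1 then 0 else |w n| * r ^ n.natAbs) := by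
    refine Summable.of_nonneg_of_le (fun n => ?_) (fun n => ?_) p.sum
    · split_ifs
      · exact le_refl _
      · have := p.r1
        positivity
    · have := p.r1
      split_ifs
      · positivity
      · exact le_refl _
  have hg1 : ∑' n : ℤ, (if n = 1 ∨ n = -1 then r else 0) = 2 * r := by
    rw [tsum_eq_sum (s := {1, -1}) (fun n hn => by
      have : ¬ (n = 1 ∨ n = -1) := by simpa using hn
      rw [if_neg this])]
    rw [Finset.sum_pair (by decide)]
    simp
    ring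
  have hg1s : Summable fun n : ℤ => (if n = 1 ∨ n = -1 then r else 0) := by
    refine summable_of_ne_finset_zero (s := {1, -1}) fun n hn => ?_
    have : ¬ (n = 1 ∨ n = -1) := by simpa using hn
    rw [if_neg this]
  have hsplit : (fun n : ℤ => |w n| * r ^ n.natAbs) = fun n : ℤ =>
      (if n = 1 ∨ n = -1 then r else 0) + (if n = 1 ∨ n = -1 then 0 else |w n| * r ^ n.natAbs) := by
    funext n
    by_cases h : n = 1 ∨ n = -1
    · rw [if_pos h, if_pos h]
      rcases h with h | h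
      · rw [h, p.one]
        simp
      · rw [h, hw1]
        simp
    · rw [if_neg h, if_neg h, zero_add]
  have hsm := p.small
  rw [hsplit, Summable.tsum_add hg1s hg2s, hg1] at hsm
  have hZle : ∀ n : ℤ, ‖(if n = 1 ∨ n = -1 then (0 : ℝ) else w n)‖ * ow s n ≤
      (if n = 1 ∨ n = -1 then 0 else |w n| * r ^ n.natAbs) := by
    intro n
    split_ifs
    · simp
    · rw [Real.norm_eq_abs]
      exact mul_le_mul_of_nonneg_left (hle n) (abs_nonneg _)
  have hZs : Sm (ow s) (fun n => if n = 1 ∨ n = -1 then (0 : ℝ) else w n) := by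
    refine Summable.of_nonneg_of_le (fun n => ?_) hZle hg2s
    exact mul_nonneg (norm_nonneg _) (by linarith [ow_one hs.le n])
  have hZ : Bd (ow s) (fun n => if n = 1 ∨ n = -1 then (0 : ℝ) else w n) (1 / 4) := by
    refine ⟨hZs, ?_⟩
    have := Summable.tsum_le_tsum hZle hZs hg2s
    unfold nm
    linarith
  have h4 : ∀ n, n ≠ 1 → n ≠ -1 → |w n| ≤ 1 / 4 := fun n h1 h2 => by
    have h := bd_pt (ow_one hs.le) hZ n
    rw [if_neg (by tauto)] at h
    exact h
  have hT : Bd (ow s) (fun n => if n = 1 ∨ n = -1 then (1 : ℝ) else 0) (2 * s) := by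
    constructor
    · refine summable_of_ne_finset_zero (s := {1, -1}) fun n hn => ?_
      have : ¬ (n = 1 ∨ n = -1) := by simpa using hn
      show ‖(if n = 1 ∨ n = -1 then (1 : ℝ) else 0)‖ * ow s n = 0
      rw [if_neg this]
      simp
    · show ∑' n : ℤ, _ ≤ _
      rw [tsum_eq_sum (s := {1, -1}) (fun n hn => by
        have : ¬ (n = 1 ∨ n = -1) := by simpa using hn
        show ‖(if n = 1 ∨ n = -1 then (1 : ℝ) else 0)‖ * ow s n = 0
        rw [if_neg this]
        simp)]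
      rw [Finset.sum_pair (by decide)]
      apply le_of_eq
      unfold ow
      simp
      ring
  refine ⟨ow_wt hs.le, fun n => ?_, p.even, p.one, fun n => ?_, h4, ?_, hZ⟩
  · unfold ow
    rw [Int.natAbs_neg]
  · by_cases h : n = 1 ∨ n = -1
    · rcases h with h | h
      · rw [h, p.one, abs_one]
      · rw [h, hw1, abs_one]
    · have := h4 n (fun h' => h (Or.inl h')) (fun h' => h (Or.inr h'))
      linarith
  · have h := bd_add (ow_one hs.le) hT hZ
    have e : (fun n : ℤ => (if n = 1 ∨ n = -1 then (1 : ℝ) else 0) +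
        (if n = 1 ∨ n = -1 then (0 : ℝ) else w n)) = w := by
      funext n
      by_cases h : n = 1 ∨ n = -1
      · rw [if_pos h, if_pos h]
        rcases h with h | h
        · rw [h, p.one]
          simp
        · rw [h, hw1]
          simp
      · rw [if_neg h, if_neg h, zero_add]
    rw [e] at h
    exact bd_mono h (by linarith)

theorem sm_of_exd {F : ℤ → ℂ} {s ρ : ℝ} (hs : 1 < s) (hsρ : s ≤ ρ)
    (hF : Summable fun n => ‖F n‖ * (ρ : ℝ) ^ n.natAbs) (g : ℤ → ℝ) (hg : ∀ n, |g n| ≤ ‖F n‖) :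
    Sm (ow s) g := by
  refine Summable.of_nonneg_of_le (fun n => ?_) (fun n => ?_) hF
  · exact mul_nonneg (norm_nonneg _) (by linarith [ow_one hs.le n])
  · exact mul_le_mul (hg n) (pow_le_pow_left₀ (by linarith) hsρ _)
      (by linarith [ow_one hs.le n]) (norm_nonneg _)

/-- the complex family with the real part `x` and the imaginary part `y` on the positive integers -/
def zf (x y : ℤ → ℝ) (n : ℤ) : ℂ := if 0 < n then (x n : ℂ) + Complex.I * (y n : ℂ) else 0

theorem hat_zf {x y : ℤ → ℝ} (hx : ∀ n, x (-n) = x n) (hy : ∀ n, y (-n) = -y n)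
    (hx0 : x 0 = 0) : hat (zf x y) = fun n => (x n : ℂ) + Complex.I * (y n : ℂ) := by
  funext n
  unfold hat zf
  rcases lt_trichotomy n 0 with h | h | h
  · rw [if_neg (by omega), if_pos h, if_pos (by omega), hx, hy]
    simp
  · have hy0 : y 0 = 0 := by
      have := hy 0
      rw [neg_zero] at this
      linarith
    rw [h, if_neg (by omega), if_neg (by omega), hx0, hy0]
    simp
  · rw [if_pos h, if_pos h]

theorem exd_zf {x y : ℤ → ℝ} {s : ℝ} (hs : 1 < s) (hx : Sm (ow s) x) (hy : Sm (ow s) y) :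
    Exd (zf x y) := by
  refine ⟨s, hs, Summable.of_nonneg_of_le (fun n => ?_) (fun n => ?_) (hx.add hy)⟩
  · exact mul_nonneg (norm_nonneg _) (by positivity)
  · rw [← add_mul]
    refine mul_le_mul_of_nonneg_right ?_ (by positivity)
    unfold zf
    split_ifs
    · refine (norm_add_le _ _).trans ?_
      rw [norm_mul, Complex.norm_I, one_mul, Complex.norm_real, Complex.norm_real]
    · rw [norm_zero]
      positivity

theorem odd_zf {x y : ℤ → ℝ} (hx : ∀ n, ¬ Odd n → x n = 0) (hy : ∀ n, ¬ Odd n → y n = 0) :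
    Oddf (zf x y) := by
  intro n hn
  unfold zf
  split_ifs
  · rw [hx n hn, hy n hn]
    simp
  · rfl

/-- The equation of one class. -/
theorem one_class (T3A : T3aStmt) {ω w : ℤ → ℝ} (D : Dat ω w) {x1 x2 y1 y2 : ℤ → ℝ}
    (hx1 : Sm ω x1) (hx2 : Sm ω x2) (hy1 : Sm ω y1) (hy2 : Sm ω y2)
    (ex1 : ∀ n, x1 (-n) = x1 n) (ex2 : ∀ n, x2 (-n) = x2 n)
    (oy1 : ∀ n, y1 (-n) = -y1 n) (oy2 : ∀ n, y2 (-n) = -y2 n)
    (zx1 : x1 0 = 0) (zx2 : x2 0 = 0) (n : ℤ) (hn : 0 < n) (μ β : ℝ) (F : ℂ)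
    (hre : μ * x1 n - (3 * T3 w w x1 n + 21 * prr w w * x1 n +
      (18 * prr w x1 + 24 * prr w x2) * w n + w n ^ 2 * (30 * x1 n + 24 * x2 n)) =
      F.re - β * w n)
    (him : μ * y1 n - Qo w 0 18 y1 n = F.im) :
    (μ : ℂ) * zf x1 y1 n - 3 * (K1 3 2 (fun q => (w q : ℂ)) (fun q => (w q : ℂ))
        (hat (zf x1 y1)) n +
      X1 (fun q => (w q : ℂ)) (fun q => (w q : ℂ)) (fun q => (w q : ℂ)) (fun q => (w q : ℂ))
          (hat (zf x1 y1)) (hat (zf x2 y2)) n) = F - (β : ℂ) * w n := by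
  rw [hat_zf ex1 oy1 zx1, hat_zf ex2 oy2 zx2]
  unfold K1 X1
  rw [t3_cx T3A D hx1 hy1, pr_cx D hx1 hy1, pr_cx D hx2 hy2, pr_ww, pr_odd D oy1, pr_odd D oy2]
  have ez : zf x1 y1 n = (x1 n : ℂ) + Complex.I * (y1 n : ℂ) := by
    unfold zf
    rw [if_pos hn]
  rw [ez]
  simp only [ex1, ex2, oy1, oy2, D.even]
  unfold Qo at him
  have h1 := congrArg (fun t : ℝ => (t : ℂ)) hre
  have h2 := congrArg (fun t : ℝ => (t : ℂ)) him
  have hF : F = (F.re : ℂ) + Complex.I * (F.im : ℂ) := by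
    rw [mul_comm]
    exact (Complex.re_add_im F).symm
  push_cast at h1 h2 ⊢
  rw [hF]
  linear_combination h1 + Complex.I * h2

/-- Row INT. -/
theorem int (T3A : T3aStmt) : IntStmt := by
  intro w ν r p μ hμ F1 F2 hF1 hF2
  obtain ⟨r1, hr1, hs1⟩ := hF1
  obtain ⟨r2, hr2, hs2⟩ := hF2
  obtain ⟨s, hs, hsr, hs101, hsr1, hsr2⟩ : ∃ s : ℝ, 1 < s ∧ s ≤ r ∧ s ≤ 101 / 100 ∧ s ≤ r1 ∧
      s ≤ r2 := by
    refine ⟨min (min r (101 / 100)) (min r1 r2), ?_, ?_, ?_, ?_, ?_⟩
    · refine lt_min (lt_min p.r1 (by norm_num)) (lt_min hr1 hr2)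
    · exact (min_le_left _ _).trans (min_le_left _ _)
    · exact (min_le_left _ _).trans (min_le_right _ _)
    · exact (min_le_right _ _).trans (min_le_left _ _)
    · exact (min_le_right _ _).trans (min_le_right _ _)
  have D : Dat (ow s) w := dat_of p hs hsr hs101
  have hμ1 : 186 ≤ μ := by
    have := p.ν1
    linarith
  have a1 := sm_of_exd hs hsr1 hs1 (fun n => (F1 n).re) fun n => Complex.abs_re_le_norm _
  have a2 := sm_of_exd hs hsr2 hs2 (fun n => (F2 n).re) fun n => Complex.abs_re_le_norm _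
  have b1 := sm_of_exd hs hsr1 hs1 (fun n => (F1 n).im) fun n => Complex.abs_im_le_norm _
  have b2 := sm_of_exd hs hsr2 hs2 (fun n => (F2 n).im) fun n => Complex.abs_im_le_norm _
  obtain ⟨xp, βp, sp, ep, op, hp⟩ := gauge T3A D μ hμ1 (fun n => (F1 n).re + (F2 n).re)
    (bd_add (ow_one hs.le) (bd_self a1) (bd_self a2)).1
  obtain ⟨xm, sm', em, om, hm⟩ := sector T3A D (-6) 6 1 μ (by norm_num) (by norm_num) hμ1
    (by norm_num) (fun n => (F1 n).re - (F2 n).re) (sm_sub (ow_one hs.le) a1 a2)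
  obtain ⟨y1, t1, e1, o1, q1⟩ := sector T3A D 0 18 (-1) μ (by norm_num) (by norm_num) hμ1
    (by norm_num) (fun n => (F1 n).im) b1
  obtain ⟨y2, t2, e2, o2, q2⟩ := sector T3A D 0 18 (-1) μ (by norm_num) (by norm_num) hμ1
    (by norm_num) (fun n => (F2 n).im) b2
  have sx : ∀ d : ℝ, Sm (ow s) (fun n => (xp n + d * xm n) / 2) := fun d => by
    have h := bd_smul (ow_one hs.le) (1 / 2) (bd_add (ow_one hs.le) (bd_self sp)
      (bd_smul (ow_one hs.le) d (bd_self sm')))
    have e : (fun n => (xp n + d * xm n) / 2) = fun n => 1 / 2 * (xp n + d * xm n) := by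
      funext n
      ring
    rw [e]
    exact h.1
  have ex : ∀ (d : ℝ) (n : ℤ), (xp (-n) + d * xm (-n)) / 2 = (xp n + d * xm n) / 2 :=
    fun d n => by rw [ep, em, one_mul]
  have ox : ∀ (d : ℝ) (n : ℤ), ¬ Odd n → (xp n + d * xm n) / 2 = 0 := fun d n hn => by
    rw [op n hn, om n hn]
    ring
  have oy1 : ∀ n, y1 (-n) = -y1 n := fun n => by rw [e1]; ring
  have oy2 : ∀ n, y2 (-n) = -y2 n := fun n => by rw [e2]; ring
  have key : ∀ (d : ℝ), d * d = 1 → ∀ n, 0 < n → Odd n → ∀ F : ℤ → ℂ,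
      (∀ n, (F n).re = ((F1 n).re + (F2 n).re + d * ((F1 n).re - (F2 n).re)) / 2) →
      μ * ((xp n + d * xm n) / 2) - (3 * T3 w w (fun n => (xp n + d * xm n) / 2) n +
        21 * prr w w * ((xp n + d * xm n) / 2) +
        (18 * prr w (fun n => (xp n + d * xm n) / 2) +
          24 * prr w (fun n => (xp n + (-d) * xm n) / 2)) * w n +
        w n ^ 2 * (30 * ((xp n + d * xm n) / 2) + 24 * ((xp n + (-d) * xm n) / 2))) =
        (F n).re - βp / 2 * w n := by
    intro d hd n hn ho F hF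
    have h1 := hp n hn ho
    have h2 := hm n hn ho
    unfold Qo at h1 h2
    rw [t3_half T3A D sp sm', pr_half D sp sm', pr_half D sp sm', hF]
    linear_combination (1 / 2) * h1 + (d / 2) * h2
  refine ⟨zf (fun n => (xp n + 1 * xm n) / 2) y1, zf (fun n => (xp n + (-1) * xm n) / 2) y2,
    βp / 2, exd_zf hs (sx 1) t1, exd_zf hs (sx (-1)) t2, odd_zf (ox 1) o1, odd_zf (ox (-1)) o2,
    fun n hn => ?_, fun n hn ho => ⟨?_, ?_⟩⟩
  · unfold zf
    rw [if_neg (by omega), if_neg (by omega)]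
    exact ⟨rfl, rfl⟩
  · have h := one_class T3A D (sx 1) (sx (-1)) t1 t2 (ex 1) (ex (-1)) oy1 oy2
      (ox 1 0 (by decide)) (ox (-1) 0 (by decide)) n hn μ (βp / 2) (F1 n)
      (key 1 (by norm_num) n hn ho F1 fun n => by ring) (q1 n hn ho)
    exact_mod_cast h
  · have h := one_class T3A D (sx (-1)) (sx 1) t2 t1 (ex (-1)) (ex 1) oy2 oy1
      (ox (-1) 0 (by decide)) (ox 1 0 (by decide)) n hn μ (βp / 2) (F2 n)
      (by
        have h := key (-1) (by norm_num) n hn ho F2 fun n => by ring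
        rw [neg_neg] at h
        exact h) (q2 n hn ho)
    exact_mod_cast h

end

end Pool.Agent.BOX.H46
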