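import Pool.Agent.BOX.StmtsT

/-!
# Squad BOX, row INT, part A: weighted sequences and the fixed point
-/

set_option autoImplicit false

namespace Pool.Agent.BOX.H46

open Set Filter Topology
open Pool.Agent.BOX

noncomputable section

/-- bounded in the weighted norm -/
def Bd (ω : ℤ → ℝ) (x : ℤ → ℝ) (K : ℝ) : Prop := Sm ω x ∧ nm ω x ≤ K

section bd
variable {ω : ℤ → ℝ}

theorem bd_self {x : ℤ → ℝ} (h : Sm ω x) : Bd ω x (nm ω x) := ⟨h, le_refl _⟩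

theorem bd_mono {x : ℤ → ℝ} {K L : ℝ} (h : Bd ω x K) (hKL : K ≤ L) : Bd ω x L :=
  ⟨h.1, h.2.trans hKL⟩

theorem bd_add (hω : ∀ n, 1 ≤ ω n) {x y : ℤ → ℝ} {K L : ℝ} (hx : Bd ω x K) (hy : Bd ω y L) :
    Bd ω (fun n => x n + y n) (K + L) := by
  have hle : ∀ n, ‖x n + y n‖ * ω n ≤ ‖x n‖ * ω n + ‖y n‖ * ω n := by
    intro n
    rw [← add_mul]
    exact mul_le_mul_of_nonneg_right (norm_add_le _ _) (by linarith [hω n])
  have hs : Sm ω (fun n => x n + y n) := by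
    refine Summable.of_nonneg_of_le (fun n => ?_) hle (hx.1.add hy.1)
    exact mul_nonneg (norm_nonneg _) (by linarith [hω n])
  refine ⟨hs, ?_⟩
  have h1 : nm ω (fun n => x n + y n) ≤ ∑' n, (‖x n‖ * ω n + ‖y n‖ * ω n) :=
    Summable.tsum_le_tsum hle hs (hx.1.add hy.1)
  rw [Summable.tsum_add hx.1 hy.1] at h1
  have h2 := hx.2
  have h3 := hy.2
  unfold nm at h2 h3
  linarith

theorem bd_dom (hω : ∀ n, 1 ≤ ω n) {x y : ℤ → ℝ} {K c : ℝ} (hc : 0 ≤ c) (hx : Bd ω x K)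
    (h : ∀ n, |y n| ≤ c * |x n|) : Bd ω y (c * K) := by
  have hle : ∀ n, ‖y n‖ * ω n ≤ c * (‖x n‖ * ω n) := by
    intro n
    rw [← mul_assoc]
    exact mul_le_mul_of_nonneg_right (h n) (by linarith [hω n])
  have hs : Sm ω y := by
    refine Summable.of_nonneg_of_le (fun n => ?_) hle (hx.1.mul_left c)
    exact mul_nonneg (norm_nonneg _) (by linarith [hω n])
  refine ⟨hs, ?_⟩
  have h1 : nm ω y ≤ ∑' n, c * (‖x n‖ * ω n) := Summable.tsum_le_tsum hle hs (hx.1.mul_left c)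
  rw [tsum_mul_left] at h1
  exact h1.trans (mul_le_mul_of_nonneg_left hx.2 hc)

theorem bd_smul (hω : ∀ n, 1 ≤ ω n) {x : ℤ → ℝ} {K : ℝ} (c : ℝ) (hx : Bd ω x K) :
    Bd ω (fun n => c * x n) (|c| * K) :=
  bd_dom hω (abs_nonneg c) hx fun n => by rw [abs_mul]

theorem bd_pt (hω : ∀ n, 1 ≤ ω n) {x : ℤ → ℝ} {K : ℝ} (hx : Bd ω x K) (n : ℤ) : |x n| ≤ K := by
  have h1 : ‖x n‖ * ω n ≤ nm ω x :=
    hx.1.le_tsum n fun m _ => mul_nonneg (norm_nonneg _) (by linarith [hω m])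
  have h2 : |x n| ≤ ‖x n‖ * ω n := by
    rw [Real.norm_eq_abs]
    exact le_mul_of_one_le_right (abs_nonneg _) (hω n)
  exact h2.trans (h1.trans hx.2)

theorem bd_nonneg (hω : ∀ n, 1 ≤ ω n) {x : ℤ → ℝ} {K : ℝ} (hx : Bd ω x K) : 0 ≤ K :=
  (abs_nonneg _).trans (bd_pt hω hx 0)

theorem bd_neg (hsym : ∀ n, ω (-n) = ω n) {x : ℤ → ℝ} {K : ℝ} (hx : Bd ω x K) :
    Bd ω (fun n => x (-n)) K := by
  have e : (fun n => ‖x (-n)‖ * ω n) = fun n => (fun m => ‖x m‖ * ω m) ((Equiv.neg ℤ) n) := by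
    funext n
    show ‖x (-n)‖ * ω n = ‖x (-n)‖ * ω (-n)
    rw [hsym]
  constructor
  · show Summable fun n => ‖x (-n)‖ * ω n
    rw [e]
    exact (Equiv.neg ℤ).summable_iff.mpr hx.1
  · show ∑' n, ‖x (-n)‖ * ω n ≤ K
    have h := (Equiv.neg ℤ).tsum_eq (fun m => ‖x m‖ * ω m)
    rw [e]
    exact (le_of_eq h).trans hx.2

theorem sm_abs (hω : ∀ n, 1 ≤ ω n) {x : ℤ → ℝ} (hx : Sm ω x) : Summable fun n => |x n| := by
  refine Summable.of_nonneg_of_le (fun n => abs_nonneg _) (fun n => ?_) hx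
  exact le_mul_of_one_le_right (abs_nonneg _) (hω n)

theorem sm_sub (hω : ∀ n, 1 ≤ ω n) {x y : ℤ → ℝ} (hx : Sm ω x) (hy : Sm ω y) :
    Sm ω (fun n => x n - y n) := by
  have h := bd_add hω (bd_self hx) (bd_smul hω (-1) (bd_self hy))
  have e : (fun n => x n - y n) = fun n => x n + -1 * y n := by
    funext n
    ring
  rw [e]
  exact h.1

/-- from the sequence space to functions -/
def un (ω : ℤ → ℝ) (X : lp (fun _ : ℤ => ℝ) 1) (n : ℤ) : ℝ := X n / ω n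

theorem un_term (hω : ∀ n, 1 ≤ ω n) (X : lp (fun _ : ℤ => ℝ) 1) (n : ℤ) :
    ‖un ω X n‖ * ω n = ‖X n‖ := by
  have h := hω n
  unfold un
  rw [norm_div, Real.norm_eq_abs (ω n), abs_of_pos (by linarith)]
  field_simp

theorem nrm_lp (X : lp (fun _ : ℤ => ℝ) 1) : ‖X‖ = ∑' n, ‖X n‖ := by
  rw [lp.norm_eq_tsum_rpow (by simp)]
  simp

theorem sum_lp (X : lp (fun _ : ℤ => ℝ) 1) : Summable fun n => ‖X n‖ := by
  have h := lp.memℓp X
  rw [memℓp_gen_iff (by simp)] at h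
  simpa using h

theorem un_sm (hω : ∀ n, 1 ≤ ω n) (X : lp (fun _ : ℤ => ℝ) 1) : Bd ω (un ω X) ‖X‖ := by
  have e : (fun n => ‖un ω X n‖ * ω n) = fun n => ‖X n‖ := by
    funext n
    exact un_term hω X n
  constructor
  · show Summable fun n => ‖un ω X n‖ * ω n
    rw [e]
    exact sum_lp X
  · show ∑' n, ‖un ω X n‖ * ω n ≤ ‖X‖
    rw [e, nrm_lp]

theorem lift_mem (hω : ∀ n, 1 ≤ ω n) (g : ℤ → ℝ) (hg : Sm ω g) :
    Memℓp (fun n => g n * ω n) (1 : ENNReal) := by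
  apply memℓp_gen
  simp only [ENNReal.toReal_one, Real.rpow_one]
  refine hg.congr fun n => ?_
  rw [norm_mul, Real.norm_eq_abs (ω n), abs_of_pos (by linarith [hω n])]

/-- The fixed point of an affine contraction. -/
theorem fixp (hω : ∀ n, 1 ≤ ω n) (T : (ℤ → ℝ) → ℤ → ℝ) (q : ℝ) (hq0 : 0 ≤ q) (hq : q < 1)
    (hT : ∀ x K, Bd ω x K → Bd ω (T x) (q * K))
    (hsub : ∀ x y, Sm ω x → Sm ω y → ∀ n, T (fun n => x n - y n) n = T x n - T y n)
    (f : ℤ → ℝ) (hf : Sm ω f) : ∃ x, Sm ω x ∧ ∀ n, x n = T x n + f n := by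
  have hS : ∀ X : lp (fun _ : ℤ => ℝ) 1, Sm ω (fun n => T (un ω X) n + f n) := fun X =>
    (bd_add hω (hT _ _ (un_sm hω X)) (bd_self hf)).1
  obtain ⟨Φ, hΦ⟩ : ∃ Φ : lp (fun _ : ℤ => ℝ) 1 → lp (fun _ : ℤ => ℝ) 1,
      ∀ X n, Φ X n = (T (un ω X) n + f n) * ω n :=
    ⟨fun X => ⟨fun n => (T (un ω X) n + f n) * ω n, lift_mem hω _ (hS X)⟩, fun _ _ => rfl⟩
  have hlip : LipschitzWith ⟨q, hq0⟩ Φ := by
    apply LipschitzWith.of_dist_le_mul
    intro X Y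
    rw [dist_eq_norm, dist_eq_norm]
    show ‖Φ X - Φ Y‖ ≤ q * ‖X - Y‖
    have h1 := hT _ _ (un_sm hω (X - Y))
    have e1 : un ω (X - Y) = fun n => un ω X n - un ω Y n := by
      funext n
      unfold un
      rw [lp.coeFn_sub, Pi.sub_apply, sub_div]
    rw [e1] at h1
    rw [nrm_lp]
    have e2 : ∀ n, ‖(Φ X - Φ Y : lp (fun _ : ℤ => ℝ) 1) n‖ =
        ‖T (fun n => un ω X n - un ω Y n) n‖ * ω n := by
      intro n
      rw [hsub _ _ (un_sm hω X).1 (un_sm hω Y).1, lp.coeFn_sub, Pi.sub_apply, hΦ, hΦ, ← sub_mul,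
        norm_mul, Real.norm_eq_abs (ω n), abs_of_pos (by linarith [hω n])]
      congr 2
      ring
    simp only [e2]
    exact h1.2
  have hc : ContractingWith ⟨q, hq0⟩ Φ := ⟨by
    show (⟨q, hq0⟩ : NNReal) < 1
    exact_mod_cast hq, hlip⟩
  have hfix := hc.fixedPoint_isFixedPt
  set X := hc.fixedPoint with hX
  refine ⟨un ω X, (un_sm hω X).1, fun n => ?_⟩
  have h1 : Φ X n = X n := by
    rw [hfix]
  rw [hΦ] at h1
  have h2 := hω n
  unfold un at h1 ⊢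
  rw [← h1]
  field_simp

end bd

end

end Pool.Agent.BOX.H46
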