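import Pool.Agent.Helper46_BOX.IntA

/-!
# Squad BOX, row INT, part B: the linear operators and their bounds
-/

set_option autoImplicit false

namespace Pool.Agent.BOX.H46

open Set Filter Topology
open Pool.Agent.BOX

noncomputable section

/-- The data of the weight and the profile. -/
structure Dat (ω w : ℤ → ℝ) : Prop where
  wt : Wt ω
  sym : ∀ n, ω (-n) = ω n
  even : ∀ n, w (-n) = w n
  one : w 1 = 1
  le1 : ∀ n, |w n| ≤ 1
  le4 : ∀ n, n ≠ 1 → n ≠ -1 → |w n| ≤ 1 / 4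
  bd : Bd ω w (227 / 100)
  bz : Bd ω (fun n => if n = 1 ∨ n = -1 then 0 else w n) (1 / 4)

/-- the pairing -/
def prr (w x : ℤ → ℝ) : ℝ := ∑' q, w q * x (-q)

/-- removal of the entries `±1` -/
def Zo (x : ℤ → ℝ) (n : ℤ) : ℝ := if n = 1 ∨ n = -1 then 0 else x n

/-- the linear operator -/
def Qo (w : ℤ → ℝ) (a b : ℝ) (x : ℤ → ℝ) (n : ℤ) : ℝ :=
  3 * T3 w w x n + 21 * prr w w * x n + a * prr w x * w n + b * (w n ^ 2 * x n)

/-- symmetrization -/
def Pp (σ : ℝ) (y : ℤ → ℝ) (n : ℤ) : ℝ := if Odd n then (if 0 < n then y n else σ * y (-n)) else 0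

section ops
variable {ω w : ℤ → ℝ}

theorem tsum_abs_le (hω : ∀ n, 1 ≤ ω n) {x : ℤ → ℝ} {K : ℝ} (hx : Bd ω x K) :
    ∑' n, |x n| ≤ K := by
  refine le_trans ?_ hx.2
  exact Summable.tsum_le_tsum (fun n => le_mul_of_one_le_right (abs_nonneg _) (hω n))
    (sm_abs hω hx.1) hx.1

theorem pr_sum (D : Dat ω w) {x : ℤ → ℝ} (hx : Sm ω x) : Summable fun q => w q * x (-q) := by
  apply Summable.of_norm
  refine Summable.of_nonneg_of_le (fun n => norm_nonneg _) (fun n => ?_)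
    (sm_abs D.wt.1 (bd_neg D.sym (bd_self hx)).1)
  rw [norm_mul, Real.norm_eq_abs, Real.norm_eq_abs]
  exact mul_le_of_le_one_left (abs_nonneg _) (D.le1 n)

theorem pr_le (D : Dat ω w) {x : ℤ → ℝ} {K c : ℝ} (hc : 0 ≤ c) (hx : Bd ω x K)
    (h : ∀ n, |w n| * |x (-n)| ≤ c * |x (-n)|) : |prr w x| ≤ c * K := by
  have hs := sm_abs D.wt.1 (bd_neg D.sym hx).1
  have h1 : Summable fun q => ‖w q * x (-q)‖ := by
    refine Summable.of_nonneg_of_le (fun n => norm_nonneg _) (fun n => ?_) (hs.mul_left c)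
    rw [norm_mul, Real.norm_eq_abs, Real.norm_eq_abs]
    exact h n
  have h2 := norm_tsum_le_tsum_norm h1
  have h3 : ∑' q, ‖w q * x (-q)‖ ≤ ∑' q, c * |x (-q)| := by
    refine Summable.tsum_le_tsum (fun n => ?_) h1 (hs.mul_left c)
    rw [norm_mul, Real.norm_eq_abs, Real.norm_eq_abs]
    exact h n
  rw [tsum_mul_left] at h3
  have h4 := tsum_abs_le D.wt.1 (bd_neg D.sym hx)
  have h5 := mul_le_mul_of_nonneg_left h4 hc
  unfold prr
  rw [Real.norm_eq_abs] at h2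
  linarith

theorem pr_sub (D : Dat ω w) {x y : ℤ → ℝ} (hx : Sm ω x) (hy : Sm ω y) :
    prr w (fun n => x n - y n) = prr w x - prr w y := by
  unfold prr
  rw [← Summable.tsum_sub (pr_sum D hx) (pr_sum D hy)]
  exact tsum_congr fun n => by ring

theorem pr_odd (D : Dat ω w) {x : ℤ → ℝ} (hx : ∀ n, x (-n) = -x n) : prr w x = 0 := by
  have h1 : prr w x = ∑' q, w (-q) * x (- -q) :=
    ((Equiv.neg ℤ).tsum_eq (fun q => w q * x (-q))).symm
  have h2 : ∑' q, w (-q) * x (- -q) = - prr w x := by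
    unfold prr
    rw [← tsum_neg]
    refine tsum_congr fun q => ?_
    rw [hx, D.even]
    ring
  linarith

theorem t3_sum (T3A : T3aStmt) (D : Dat ω w) {x : ℤ → ℝ} (hx : Sm ω x) (n : ℤ) :
    Summable fun h : ℤ × ℤ => w h.1 * w h.2 * x (n - h.1 - h.2) := by
  apply Summable.of_norm
  refine ((T3A ℤ ℝ ω w w x D.wt D.bd.1 D.bd.1 hx).1 n).congr fun h => ?_
  rw [norm_mul, norm_mul]

theorem t3_sub (T3A : T3aStmt) (D : Dat ω w) {x y : ℤ → ℝ} (hx : Sm ω x) (hy : Sm ω y) (n : ℤ) :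
    T3 w w (fun n => x n - y n) n = T3 w w x n - T3 w w y n := by
  unfold T3
  rw [← Summable.tsum_sub (t3_sum T3A D hx n) (t3_sum T3A D hy n)]
  exact tsum_congr fun h => by ring

theorem t3_bd (T3A : T3aStmt) (D : Dat ω w) {x : ℤ → ℝ} {K : ℝ} (hx : Bd ω x K) :
    Bd ω (T3 w w x) (227 / 100 * (227 / 100) * K) := by
  have h := (T3A ℤ ℝ ω w w x D.wt D.bd.1 D.bd.1 hx.1).2
  refine ⟨h.1, h.2.trans ?_⟩
  have h0 : ∀ y : ℤ → ℝ, 0 ≤ nm ω y := fun y =>
    tsum_nonneg fun n => mul_nonneg (norm_nonneg _) (by linarith [D.wt.1 n])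
  have hw := D.bd.2
  have h1 : nm ω w * nm ω w ≤ 227 / 100 * (227 / 100) :=
    mul_le_mul hw hw (h0 w) (by norm_num)
  exact mul_le_mul h1 hx.2 (h0 x) (by norm_num)

theorem m_le (D : Dat ω w) : |prr w w| ≤ 227 / 100 := by
  have h := pr_le D (c := 1) (by norm_num) D.bd fun n =>
    mul_le_mul_of_nonneg_right (D.le1 n) (abs_nonneg _)
  linarith

theorem qo_sub (T3A : T3aStmt) (D : Dat ω w) (a b : ℝ) {x y : ℤ → ℝ} (hx : Sm ω x) (hy : Sm ω y)
    (n : ℤ) : Qo w a b (fun n => x n - y n) n = Qo w a b x n - Qo w a b y n := by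
  unfold Qo
  rw [t3_sub T3A D hx hy, pr_sub D hx hy]
  ring

theorem qo_bd (T3A : T3aStmt) (D : Dat ω w) (a b : ℝ) {x : ℤ → ℝ} {K : ℝ} (hx : Bd ω x K) :
    Bd ω (Qo w a b x) ((3 * (227 / 100 * (227 / 100)) + 21 * (227 / 100) + |a| * (227 / 100) +
      |b|) * K) := by
  have hK := bd_nonneg D.wt.1 hx
  have h1 := bd_smul D.wt.1 3 (t3_bd T3A D hx)
  have h2 := bd_smul D.wt.1 (21 * prr w w) hx
  have h3 := bd_smul D.wt.1 (a * prr w x) D.bd
  have h4 : Bd ω (fun n => w n ^ 2 * x n) (1 * K) := by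
    refine bd_dom D.wt.1 (by norm_num) hx fun n => ?_
    rw [abs_mul, abs_pow]
    exact mul_le_mul_of_nonneg_right (pow_le_one₀ (abs_nonneg _) (D.le1 n)) (abs_nonneg _)
  have h5 := bd_smul D.wt.1 b h4
  have h6 := bd_add D.wt.1 (bd_add D.wt.1 (bd_add D.wt.1 h1 h2) h3) h5
  refine bd_mono h6 ?_
  have hm := m_le D
  have hp : |prr w x| ≤ 1 * K := pr_le D (by norm_num) hx fun n =>
    mul_le_mul_of_nonneg_right (D.le1 n) (abs_nonneg _)
  have e2 : |21 * prr w w| * K ≤ 21 * (227 / 100) * K := by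
    rw [abs_mul, abs_of_pos (by norm_num : (0 : ℝ) < 21)]
    exact mul_le_mul_of_nonneg_right (by linarith) hK
  have e3 : |a * prr w x| * (227 / 100) ≤ |a| * (227 / 100) * K := by
    rw [abs_mul]
    nlinarith [mul_le_mul_of_nonneg_left hp (abs_nonneg a)]
  rw [abs_of_pos (by norm_num : (0 : ℝ) < 3)]
  linarith

theorem pp_bd (D : Dat ω w) (σ : ℝ) (hσ : |σ| = 1) {y : ℤ → ℝ} {K : ℝ} (hy : Bd ω y K) :
    Bd ω (Pp σ y) (2 * K) := by
  have h1 : Bd ω (fun n => |y n|) (1 * K) := bd_dom D.wt.1 (by norm_num) hy fun n => by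
    rw [abs_abs, one_mul]
  have h2 : Bd ω (fun n => |y (-n)|) (1 * K) :=
    bd_dom D.wt.1 (by norm_num) (bd_neg D.sym hy) fun n => by rw [abs_abs, one_mul]
  have h3 := bd_add D.wt.1 h1 h2
  have h4 : Bd ω (Pp σ y) (1 * (1 * K + 1 * K)) := by
    refine bd_dom D.wt.1 (by norm_num) h3 fun n => ?_
    have e1 := abs_nonneg (y n)
    have e2 := abs_nonneg (y (-n))
    rw [abs_of_nonneg (by linarith : 0 ≤ |y n| + |y (-n)|)]
    unfold Pp
    split_ifs
    · linarith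
    · rw [abs_mul, hσ]
      linarith
    · rw [abs_zero]
      linarith
  exact bd_mono h4 (by linarith)

theorem pp_sub (σ : ℝ) (x y : ℤ → ℝ) (n : ℤ) :
    Pp σ (fun n => x n - y n) n = Pp σ x n - Pp σ y n := by
  unfold Pp
  split_ifs <;> ring

theorem zo_bd (D : Dat ω w) {x : ℤ → ℝ} {K : ℝ} (hx : Bd ω x K) : Bd ω (Zo x) K := by
  have h := bd_dom (y := Zo x) D.wt.1 (c := 1) (by norm_num) hx fun n => by
    unfold Zo
    split_ifs
    · rw [abs_zero]
      positivity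
    · rw [one_mul]
  exact bd_mono h (by linarith)

theorem pp_sym (σ : ℝ) (hσ : σ * σ = 1) (y : ℤ → ℝ) (n : ℤ) : Pp σ y (-n) = σ * Pp σ y n := by
  unfold Pp
  by_cases ho : Odd n
  · have ho' : Odd (-n) := ho.neg
    have hn0 : n ≠ 0 := by
      rintro rfl
      exact absurd ho (by decide)
    rw [if_pos ho, if_pos ho']
    by_cases hn : 0 < n
    · rw [if_neg (by omega), if_pos hn, neg_neg]
    · rw [if_pos (by omega), if_neg hn, ← mul_assoc, hσ, one_mul]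
  · have ho' : ¬ Odd (-n) := fun h => ho (by simpa using h.neg)
    rw [if_neg ho, if_neg ho', mul_zero]

/-- The sectors without gauge. -/
theorem sector (T3A : T3aStmt) (D : Dat ω w) (a b σ μ : ℝ) (hσ : |σ| = 1) (hσ2 : σ * σ = 1)
    (hμ : 186 ≤ μ)
    (hab : 2 * (3 * (227 / 100 * (227 / 100)) + 21 * (227 / 100) + |a| * (227 / 100) + |b|) ≤
      9 / 10 * 186) (f : ℤ → ℝ) (hf : Sm ω f) :
    ∃ x : ℤ → ℝ, Sm ω x ∧ (∀ n, x (-n) = σ * x n) ∧ (∀ n, ¬ Odd n → x n = 0) ∧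
      ∀ n, 0 < n → Odd n → μ * x n - Qo w a b x n = f n := by
  have hμ0 : 0 < μ := by linarith
  obtain ⟨x, hx, hfix⟩ := fixp D.wt.1 (fun x n => 1 / μ * Pp σ (Qo w a b x) n) (9 / 10)
    (by norm_num) (by norm_num) (fun x K hx => by
      have hK := bd_nonneg D.wt.1 hx
      refine bd_mono (bd_smul D.wt.1 (1 / μ) (pp_bd D σ hσ (qo_bd T3A D a b hx))) ?_
      rw [abs_of_pos (by positivity), ← mul_assoc 2, div_mul_eq_mul_div, one_mul,
        div_le_iff₀ hμ0]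
      have h1 := mul_le_mul_of_nonneg_right hab hK
      have h2 : 9 / 10 * 186 * K ≤ 9 / 10 * K * μ := by nlinarith
      linarith) (fun x y hx hy n => by
      have e : Qo w a b (fun n => x n - y n) = fun n => Qo w a b x n - Qo w a b y n :=
        funext fun n => qo_sub T3A D a b hx hy n
      show 1 / μ * Pp σ (Qo w a b (fun n => x n - y n)) n = _
      rw [e, pp_sub]
      ring) (fun n => 1 / μ * Pp σ f n) (bd_smul D.wt.1 (1 / μ) (pp_bd D σ hσ (bd_self hf))).1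
  refine ⟨x, hx, fun n => ?_, fun n hn => ?_, fun n hn ho => ?_⟩
  · rw [hfix, hfix n, pp_sym σ hσ2, pp_sym σ hσ2]
    ring
  · rw [hfix]
    unfold Pp
    rw [if_neg hn, if_neg hn]
    ring
  · have h := hfix n
    unfold Pp at h
    rw [if_pos ho, if_pos ho, if_pos hn, if_pos hn] at h
    have h2 : μ * x n = Qo w a b x n + f n := by
      rw [h]
      field_simp
    rw [h2]
    ring

end ops

end

end Pool.Agent.BOX.H46
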