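import Pool.Agent.Helper46_BOX.IntB

/-!
# Squad BOX, row INT, part C: the sector with the gauge; complex families
-/

set_option autoImplicit false

namespace Pool.Agent.BOX.H46

open Set Filter Topology
open Pool.Agent.BOX

noncomputable section

section gau
variable {ω w : ℤ → ℝ}

/-- the operator of the gauge sector -/
def Go (w : ℤ → ℝ) (x : ℤ → ℝ) : ℤ → ℝ :=
  Zo (fun n => Qo w 42 54 (Zo x) n - Qo w 42 54 (Zo x) 1 * w n)

theorem go_bd (T3A : T3aStmt) (D : Dat ω w) {x : ℤ → ℝ} {K : ℝ} (hx : Bd ω x K) :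
    Bd ω (Go w x) (756 / 10 * K + 1 / 10 * K) := by
  have hX := zo_bd D hx
  have hK := bd_nonneg D.wt.1 hx
  have hX1 : Zo x 1 = 0 := by
    unfold Zo
    rw [if_pos (Or.inl rfl)]
  have hp : |prr w (Zo x)| ≤ 1 / 4 * K := by
    refine pr_le D (by norm_num) hX fun n => ?_
    by_cases h : -n = 1 ∨ -n = -1
    · have e : Zo x (-n) = 0 := by
        unfold Zo
        rw [if_pos h]
      rw [e]
      simp
    · refine mul_le_mul_of_nonneg_right (D.le4 n ?_ ?_) (abs_nonneg _)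
      · rintro rfl
        exact h (Or.inr rfl)
      · rintro rfl
        exact h (Or.inl rfl)
  have hT := t3_bd T3A D hX
  have hT1 := bd_pt D.wt.1 hT 1
  have hQ1 : |Qo w 42 54 (Zo x) 1| ≤ 3 * (227 / 100 * (227 / 100) * K) + 42 * (1 / 4 * K) := by
    unfold Qo
    rw [hX1, D.one]
    have e : 3 * T3 w w (Zo x) 1 + 21 * prr w w * 0 + 42 * prr w (Zo x) * 1 +
        54 * ((1 : ℝ) ^ 2 * 0) = 3 * T3 w w (Zo x) 1 + 42 * prr w (Zo x) := by ring
    rw [e]
    refine (abs_add_le _ _).trans ?_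
    rw [abs_mul, abs_mul, abs_of_pos (by norm_num : (0 : ℝ) < 3),
      abs_of_pos (by norm_num : (0 : ℝ) < 42)]
    linarith
  have h1 := bd_smul D.wt.1 3 hT
  have h2 := bd_smul D.wt.1 (21 * prr w w) hX
  have h3 := bd_smul D.wt.1 (42 * prr w (Zo x) - Qo w 42 54 (Zo x) 1) D.bz
  have h4 : Bd ω (fun n => w n ^ 2 * Zo x n) (1 / 16 * K) := by
    refine bd_dom D.wt.1 (by norm_num) hX fun n => ?_
    by_cases h : n = 1 ∨ n = -1
    · have e : Zo x n = 0 := by
        unfold Zo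
        rw [if_pos h]
      rw [e]
      simp
    · have h5 := D.le4 n (fun h' => h (Or.inl h')) (fun h' => h (Or.inr h'))
      rw [abs_mul, abs_pow]
      refine mul_le_mul_of_nonneg_right ?_ (abs_nonneg _)
      calc |w n| ^ 2 ≤ (1 / 4) ^ 2 := pow_le_pow_left₀ (abs_nonneg _) h5 2
        _ = 1 / 16 := by norm_num
  have h5 := bd_smul D.wt.1 54 h4
  have h6 := bd_add D.wt.1 (bd_add D.wt.1 (bd_add D.wt.1 h1 h2) h3) h5
  have h7 : Bd ω (Go w x) (1 * _) := bd_dom D.wt.1 (by norm_num) h6 fun n => by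
    unfold Go
    by_cases h : n = 1 ∨ n = -1
    · have e : Zo (fun n => Qo w 42 54 (Zo x) n - Qo w 42 54 (Zo x) 1 * w n) n = 0 := by
        unfold Zo
        rw [if_pos h]
      rw [e, abs_zero]
      positivity
    · have e : Zo (fun n => Qo w 42 54 (Zo x) n - Qo w 42 54 (Zo x) 1 * w n) n =
          Qo w 42 54 (Zo x) n - Qo w 42 54 (Zo x) 1 * w n := by
        show (if n = 1 ∨ n = -1 then 0 else _) = _
        rw [if_neg h]
      rw [e, one_mul, if_neg h]
      apply le_of_eq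
      congr 1
      conv_lhs => rw [Qo]
      ring
  refine bd_mono h7 ?_
  have hm := m_le D
  have e2 : |21 * prr w w| * K ≤ 21 * (227 / 100) * K := by
    rw [abs_mul, abs_of_pos (by norm_num : (0 : ℝ) < 21)]
    exact mul_le_mul_of_nonneg_right (by linarith) hK
  have e3 : |42 * prr w (Zo x) - Qo w 42 54 (Zo x) 1| ≤ 42 * (1 / 4 * K) +
      (3 * (227 / 100 * (227 / 100) * K) + 42 * (1 / 4 * K)) := by
    refine (abs_sub _ _).trans ?_
    rw [abs_mul, abs_of_pos (by norm_num : (0 : ℝ) < 42)]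
    linarith
  rw [abs_of_pos (by norm_num : (0 : ℝ) < 3), abs_of_pos (by norm_num : (0 : ℝ) < 54)]
  linarith

theorem zo_sub (x y : ℤ → ℝ) : Zo (fun n => x n - y n) = fun n => Zo x n - Zo y n := by
  funext n
  unfold Zo
  split_ifs <;> ring

theorem go_sub (T3A : T3aStmt) (D : Dat ω w) {x y : ℤ → ℝ} (hx : Sm ω x) (hy : Sm ω y) :
    Go w (fun n => x n - y n) = fun n => Go w x n - Go w y n := by
  have hX := (zo_bd D (bd_self hx)).1
  have hY := (zo_bd D (bd_self hy)).1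
  have e2 : (fun n => Qo w 42 54 (Zo (fun n => x n - y n)) n -
      Qo w 42 54 (Zo (fun n => x n - y n)) 1 * w n) =
      fun n => (Qo w 42 54 (Zo x) n - Qo w 42 54 (Zo x) 1 * w n) -
        (Qo w 42 54 (Zo y) n - Qo w 42 54 (Zo y) 1 * w n) := by
    rw [zo_sub x y]
    funext n
    rw [qo_sub T3A D 42 54 hX hY, qo_sub T3A D 42 54 hX hY]
    ring
  unfold Go
  rw [e2, zo_sub]

/-- The sector with the gauge. -/
theorem gauge (T3A : T3aStmt) (D : Dat ω w) (μ : ℝ) (hμ : 186 ≤ μ) (f : ℤ → ℝ) (hf : Sm ω f) :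
    ∃ (x : ℤ → ℝ) (β : ℝ), Sm ω x ∧ (∀ n, x (-n) = x n) ∧ (∀ n, ¬ Odd n → x n = 0) ∧
      ∀ n, 0 < n → Odd n → μ * x n - Qo w 42 54 x n = f n - β * w n := by
  have hμ0 : 0 < μ := by linarith
  have hσ : |(1 : ℝ)| = 1 := abs_one
  have hf1 : Sm ω (fun n => f n - f 1 * w n) := sm_sub D.wt.1 hf (bd_smul D.wt.1 (f 1) D.bd).1
  obtain ⟨x, hx, hfix⟩ := fixp D.wt.1 (fun x n => 1 / μ * Pp 1 (Go w x) n) (9 / 10)
    (by norm_num) (by norm_num) (fun x K hx => by
      have hK := bd_nonneg D.wt.1 hx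
      refine bd_mono (bd_smul D.wt.1 (1 / μ) (pp_bd D 1 hσ (go_bd T3A D hx))) ?_
      rw [abs_of_pos (by positivity), div_mul_eq_mul_div, one_mul, div_le_iff₀ hμ0]
      have h2 : 9 / 10 * 186 * K ≤ 9 / 10 * K * μ := by nlinarith
      linarith) (fun x y hx hy n => by
      show 1 / μ * Pp 1 (Go w (fun n => x n - y n)) n = _
      rw [go_sub T3A D hx hy, pp_sub]
      ring) (fun n => 1 / μ * Pp 1 (Zo (fun n => f n - f 1 * w n)) n)
    (bd_smul D.wt.1 (1 / μ) (pp_bd D 1 hσ (zo_bd D (bd_self hf1)))).1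
  have hsym : ∀ n, x (-n) = x n := fun n => by
    rw [hfix, hfix n, pp_sym 1 (by norm_num), pp_sym 1 (by norm_num)]
    ring
  have hx1 : x 1 = 0 := by
    rw [hfix]
    unfold Pp Go Zo
    simp
  have hZ : Zo x = x := by
    funext n
    unfold Zo
    split_ifs with h
    · rcases h with h | h
      · rw [h, hx1]
      · rw [h, hsym, hx1]
    · rfl
  refine ⟨x, f 1 + Qo w 42 54 x 1, hx, hsym, fun n hn => ?_, fun n hn ho => ?_⟩
  · rw [hfix]
    unfold Pp
    rw [if_neg hn, if_neg hn]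
    ring
  · by_cases h1 : n = 1
    · rw [h1, hx1, D.one]
      ring
    · have h := hfix n
      unfold Pp Go at h
      rw [if_pos ho, if_pos ho, if_pos hn, if_pos hn, hZ] at h
      have hn1 : ¬ (n = 1 ∨ n = -1) := by omega
      have e1 : Zo (fun n => Qo w 42 54 x n - Qo w 42 54 x 1 * w n) n =
          Qo w 42 54 x n - Qo w 42 54 x 1 * w n := by
        show (if n = 1 ∨ n = -1 then 0 else _) = _
        rw [if_neg hn1]
      have e2 : Zo (fun n => f n - f 1 * w n) n = f n - f 1 * w n := by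
        show (if n = 1 ∨ n = -1 then 0 else _) = _
        rw [if_neg hn1]
      rw [e1, e2] at h
      have h2 : μ * x n = Qo w 42 54 x n - Qo w 42 54 x 1 * w n + (f n - f 1 * w n) := by
        rw [h]
        field_simp
      rw [h2]
      ring

/-! ### complex families -/

theorem t3_half (T3A : T3aStmt) (D : Dat ω w) {x y : ℤ → ℝ} (hx : Sm ω x) (hy : Sm ω y) (d : ℝ)
    (n : ℤ) : T3 w w (fun n => (x n + d * y n) / 2) n = (T3 w w x n + d * T3 w w y n) / 2 := by
  unfold T3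
  rw [← tsum_mul_left, ← Summable.tsum_add (t3_sum T3A D hx n) ((t3_sum T3A D hy n).mul_left d),
    ← tsum_div_const]
  exact tsum_congr fun h => by ring

theorem pr_half (D : Dat ω w) {x y : ℤ → ℝ} (hx : Sm ω x) (hy : Sm ω y) (d : ℝ) :
    prr w (fun n => (x n + d * y n) / 2) = (prr w x + d * prr w y) / 2 := by
  unfold prr
  rw [← tsum_mul_left, ← Summable.tsum_add (pr_sum D hx) ((pr_sum D hy).mul_left d),
    ← tsum_div_const]
  exact tsum_congr fun h => by ring

theorem t3_cx (T3A : T3aStmt) (D : Dat ω w) {x y : ℤ → ℝ} (hx : Sm ω x) (hy : Sm ω y) (n : ℤ) :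
    T3 (fun q => (w q : ℂ)) (fun q => (w q : ℂ))
      (fun q => (x q : ℂ) + Complex.I * (y q : ℂ)) n =
    ((T3 w w x n : ℝ) : ℂ) + Complex.I * ((T3 w w y n : ℝ) : ℂ) := by
  have h1 : Summable fun h : ℤ × ℤ => ((w h.1 * w h.2 * x (n - h.1 - h.2) : ℝ) : ℂ) :=
    Complex.ofRealCLM.summable (t3_sum T3A D hx n)
  have h2 : Summable fun h : ℤ × ℤ => ((w h.1 * w h.2 * y (n - h.1 - h.2) : ℝ) : ℂ) :=
    Complex.ofRealCLM.summable (t3_sum T3A D hy n)
  unfold T3
  rw [Complex.ofReal_tsum, Complex.ofReal_tsum, ← tsum_mul_left,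
    ← Summable.tsum_add h1 (h2.mul_left Complex.I)]
  refine tsum_congr fun h => ?_
  push_cast
  ring

theorem pr_cx (D : Dat ω w) {x y : ℤ → ℝ} (hx : Sm ω x) (hy : Sm ω y) :
    pr (fun q => (w q : ℂ)) (fun q => (x q : ℂ) + Complex.I * (y q : ℂ)) =
    (prr w x : ℂ) + Complex.I * (prr w y : ℂ) := by
  have h1 : Summable fun q : ℤ => ((w q * x (-q) : ℝ) : ℂ) :=
    Complex.ofRealCLM.summable (pr_sum D hx)
  have h2 : Summable fun q : ℤ => ((w q * y (-q) : ℝ) : ℂ) :=
    Complex.ofRealCLM.summable (pr_sum D hy)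
  unfold pr prr
  rw [Complex.ofReal_tsum, Complex.ofReal_tsum, ← tsum_mul_left,
    ← Summable.tsum_add h1 (h2.mul_left Complex.I)]
  refine tsum_congr fun h => ?_
  push_cast
  ring

theorem pr_ww : pr (fun q => (w q : ℂ)) (fun q => (w q : ℂ)) = (prr w w : ℂ) := by
  unfold pr prr
  rw [Complex.ofReal_tsum]
  refine tsum_congr fun h => ?_
  push_cast
  ring

end gau

end

end Pool.Agent.BOX.H46
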